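import Pool.Agent.H715.TW.Stm4

/-!
# T4A: the norm theorem for cyclic extensions of `ℚ` (tower project of helper715)
-/

set_option autoImplicit false

namespace Pool.Agent.H572.TW

open Pool.Agent.H528R2 (Vge)
open Pool.Agent.H715.TW
open NumberField IsDedekindDomain Pool.Agent.Q5.BR Pool.Agent.Q92.AR Pool.Agent.Q182.AR

/-- an injective character of a finite cyclic group -/
theorem exists_char {G : Type} [Group G] [Finite G] (σ : G)
    (hσ : ∀ g : G, g ∈ Subgroup.zpowers σ) : ∃ ψ : G →* ℂˣ, Function.Injective ψ := by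
  classical
  have hcyc : IsCyclic G := ⟨σ, hσ⟩
  have : NeZero (Nat.card G) := ⟨Nat.card_pos.ne'⟩
  let e : Multiplicative (ZMod (Nat.card G)) ≃* G := zmodCyclicMulEquiv hcyc
  let χ : Multiplicative (ZMod (Nat.card G)) →* ℂ := (ZMod.stdAddChar (N := Nat.card G)).toMonoidHom
  refine ⟨(MonoidHom.toHomUnits χ).comp e.symm.toMonoidHom, ?_⟩
  intro a b hab
  have h1 : χ (e.symm a) = χ (e.symm b) := congrArg Units.val hab
  have h2 : (ZMod.stdAddChar (N := Nat.card G)) (Multiplicative.toAdd (e.symm a)) =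
      (ZMod.stdAddChar (N := Nat.card G)) (Multiplicative.toAdd (e.symm b)) := h1
  have h3 := ZMod.injective_stdAddChar h2
  exact e.symm.injective (Multiplicative.toAdd.injective h3)

theorem t4a (h : S_T4Q) : S_T4A := by
  classical
  intro E _ _ _ σ hσ N hN
  obtain ⟨P, hP⟩ := h
  obtain ⟨ψ, hψ⟩ := exists_char σ hσ
  obtain ⟨N0, hN0, hram0, hart⟩ := recip ℚ E ψ
  obtain ⟨N1, N2, hN1, hN2, hd1, hd2, hk, A, hst, hsub, hsup, hh1⟩ :=
    Pool.Agent.Q149.AR.va ℚ E σ hσ (N0 * N) (mul_ne_zero hN0 hN)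
  have hd0 : N0 ∣ N1 := (Dvd.intro _ rfl).trans hd1
  have hd02 : N0 ∣ N2 := hd0.trans hd2
  have hram1 : Ram ℚ E N1 := fun v hv => mem_dvd hd0 (hram0 v hv)
  have hram2 : Ram ℚ E N2 := fun v hv => mem_dvd hd02 (hram0 v hv)
  have hPrE : Pr E N2 = Pr E N1 := Pr_eq hd2 hk
  refine ⟨N2, hN2, ((Dvd.intro_left _ rfl).trans hd1).trans hd2, ?_⟩
  intro e1 l y he1 hl hlN2 hdiv hpos hV
  obtain ⟨m1, m2, m3, m4, m5, m6⟩ := Pool.Agent.Q106.AR.nm ℚ E
  have hy0 : y ≠ 0 := by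
    intro h0
    rw [h0, Algebra.norm_zero] at hpos
    exact lt_irrefl _ hpos
  have hel : ((e1 * l : ℕ) : ℚ) ≠ 0 := Nat.cast_ne_zero.2 (mul_ne_zero he1 hl.ne_zero)
  have hel0 : (0 : ℚ) < ((e1 * l : ℕ) : ℚ) :=
    Nat.cast_pos.2 (Nat.pos_of_ne_zero (mul_ne_zero he1 hl.ne_zero))
  let yu : Eˣ := Units.mk0 y hy0
  let c : ℚˣ := Units.mk0 ((e1 * l : ℕ) : ℚ) hel
  let x : ℚˣ := c / nu ℚ E yu
  have hxv : (x : ℚ) = ((e1 * l : ℕ) : ℚ) / Algebra.norm ℚ y := by
    change ((c / nu ℚ E yu : ℚˣ) : ℚ) = _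
    rw [Units.val_div_eq_div_val]
    rfl
  -- the primes
  have hPN : ∀ (v : HeightOneSpectrum (𝓞 ℚ)) (n : ℕ), (n : 𝓞 ℚ) ∈ v.asIdeal ↔ (P v : ℕ) ∣ n :=
    fun v n => (hP v).1 n
  have hPp : ∀ v : HeightOneSpectrum (𝓞 ℚ), (P v : ℕ).Prime := fun v => (P v).2
  have hcong : Cong N2 (x : ℚ) := by
    intro v hv
    have hpv := (hPN v N2).1 hv
    have h1 := hV (P v : ℕ) (hPp v) hpv
    rw [← hxv] at h1
    by_cases hx1 : (x : ℚ) - 1 = 0
    · rw [hx1, map_zero]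
      exact zero_le
    · have h2 : ((padicValNat (P v : ℕ) N2 : ℕ) : ℤ) ≤ padicValRat (P v : ℕ) ((x : ℚ) - 1) := by
        rcases h1 with h1 | h1
        · exact absurd h1 hx1
        · exact h1
      have h3 := Pool.Agent.Q128.AR.val_prin (Units.mk0 _ hx1) v
      rw [Units.val_mk0] at h3
      have hN2q : ((N2 : ℕ) : ℚ) ≠ 0 := Nat.cast_ne_zero.2 hN2
      have h4 := Pool.Agent.Q128.AR.val_prin (Units.mk0 _ hN2q) v
      rw [Units.val_mk0] at h4
      rw [h3, h4, (hP v).2, (hP v).2, Units.val_mk0, Units.val_mk0, padicValRat.of_nat,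
        WithZero.exp_le_exp]
      omega
  have hxpos : 0 < (x : ℚ) := by
    rw [hxv]
    exact div_pos hel0 hpos
  have hPos : Pos (x : ℚ) := by
    intro φ
    rw [eq_ratCast φ]
    exact_mod_cast hxpos
  have hray2 : x ∈ Ray ℚ N2 := ⟨hcong, hPos⟩
  have hray0 : x ∈ Ray ℚ N0 := by
    refine ⟨?_, hPos⟩
    intro v hv
    refine (hcong v (mem_dvd hd02 hv)).trans ?_
    obtain ⟨m, rfl⟩ := hd02
    rw [Nat.cast_mul, map_mul]
    refine mul_le_of_le_one_right' ?_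
    have h5 := v.valuation_le_one (K := ℚ) (m : 𝓞 ℚ)
    simpa using h5
  have hartx : art ψ (prin x) = 0 := hart x hray0
  -- the set of the primes dividing `N2`
  let T : Set (HeightOneSpectrum (𝓞 ℚ)) := {v | (N2 : 𝓞 ℚ) ∈ v.asIdeal}
  have hTE : ∀ w : HeightOneSpectrum (𝓞 E), w.under (𝓞 ℚ) ∈ T ↔ (N2 : 𝓞 E) ∈ w.asIdeal := by
    intro w
    change (N2 : 𝓞 ℚ) ∈ (w.under (𝓞 ℚ)).asIdeal ↔ _
    rw [show (w.under (𝓞 ℚ)).asIdeal = w.asIdeal.comap (algebraMap (𝓞 ℚ) (𝓞 E)) from rfl,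
      Ideal.mem_comap, map_natCast]
  let D1 : Dv E := (prin yu).filter (fun w => ¬ w.under (𝓞 ℚ) ∈ T)
  let D2 : Dv E := (prin yu).filter (fun w => w.under (𝓞 ℚ) ∈ T)
  have hsum : D2 + D1 = prin yu := Finsupp.filter_add_filter_not _ _
  have hD1 : D1 ∈ SupE ℚ E Tᶜ := by
    intro w hw
    exact Finsupp.filter_apply_neg _ _ (fun h => hw h)
  have hD2 : D2 ∈ SupE ℚ E T := by
    intro w hw
    exact Finsupp.filter_apply_neg _ _ hw
  have hn1 := nmD_mem Tᶜ hD1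
  have hn2 := nmD_mem T hD2
  have hD1Pr : D1 ∈ Pr E N2 := by
    intro w hw
    exact hD1 w (fun h => h ((hTE w).2 hw))
  have hnm : nmD ℚ E D2 + nmD ℚ E D1 = prin (nu ℚ E yu) := by
    rw [← map_add, hsum, m1]
  obtain ⟨vl, hPvl⟩ : ∃ vl : HeightOneSpectrum (𝓞 ℚ), (P vl : ℕ) = l := by
    obtain ⟨vl, hvl⟩ := P.surjective ⟨l, hl⟩
    exact ⟨vl, by rw [hvl]⟩
  have hvlT : vl ∉ T := by
    intro hmem
    have := (hPN vl N2).1 hmem
    rw [hPvl] at this
    exact hlN2 this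
  have hvl : ∀ v : HeightOneSpectrum (𝓞 ℚ), (P v : ℕ) = l → v = vl := by
    intro v hv
    apply P.injective
    apply Subtype.ext
    rw [hv, hPvl]
  have hprin : prin x = Finsupp.single vl 1 - nmD ℚ E D1 := by
    ext v
    rw [Finsupp.sub_apply]
    by_cases hv : v ∈ T
    · have e1' : prin x v = 0 := by
        rw [prin_eq_zero_iff]
        exact val_eq_one hv (hcong v hv)
      have e2 : nmD ℚ E D1 v = 0 := hn1 v (fun h => h hv)
      have e3 : vl ≠ v := by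
        rintro rfl
        exact hvlT hv
      rw [e1', e2, Finsupp.single_apply, if_neg e3, sub_zero]
    · have e2 : nmD ℚ E D2 v = 0 := hn2 v hv
      have e4 : prin (nu ℚ E yu) v = nmD ℚ E D1 v := by
        rw [← hnm, Finsupp.add_apply, e2, zero_add]
      have e5 : prin x v = prin c v - prin (nu ℚ E yu) v := by
        change prin (c / nu ℚ E yu) v = _
        rw [prin_div, Finsupp.sub_apply]
      rw [e5, e4, sub_left_inj, (hP v).2]
      change padicValRat (P v : ℕ) ((e1 * l : ℕ) : ℚ) = _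
      have hfp : Fact (P v : ℕ).Prime := ⟨hPp v⟩
      rw [padicValRat.of_nat, padicValNat.mul he1 hl.ne_zero]
      have e6 : padicValNat (P v : ℕ) e1 = 0 := by
        apply padicValNat.eq_zero_of_not_dvd
        intro hd
        exact hv ((hPN v N2).2 (hdiv _ (hPp v) hd))
      rw [e6, zero_add, Finsupp.single_apply]
      by_cases hvv : vl = v
      · rw [if_pos hvv, ← hvv, hPvl]
        have : Fact l.Prime := ⟨hl⟩
        rw [padicValNat_self]
        rfl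
      · rw [if_neg hvv, padicValNat.eq_zero_of_not_dvd]
        · rfl
        · intro hd
          exact hvv (hvl v ((Nat.prime_dvd_prime_iff_eq (hPp v) hl).1 hd)).symm
  have hartD1 : art ψ (nmD ℚ E D1) = 0 := (all_NKer ℚ E ψ N2 hN2).1 hram2 D1 hD1Pr
  have hfrob : frob E vl = 1 := by
    rw [hprin, map_sub, hartD1, sub_zero, art_single, one_smul] at hartx
    have h6 : ψ (frob E vl) = 1 := congrArg Additive.toMul hartx
    exact hψ (h6.trans (map_one ψ).symm)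
  have hunr : Unramified E vl := by
    by_contra hne
    exact hvlT (hram2 vl hne)
  obtain ⟨w, hw⟩ := exists_above (E := E) vl
  have hrdeg : rdeg ℚ w = 1 := by
    have h7 := Pool.Agent.Q225.AR.fr.2.2.2 ℚ E w (frob E vl) (by rw [hw]; exact hunr)
      (by rw [hw]; exact frob_spec vl)
    rw [← h7, hfrob, orderOf_one]
  have hD : ∃ D ∈ Pr E N1, nmD ℚ E D = prin x := by
    refine ⟨Finsupp.single w 1 - D1, ?_, ?_⟩
    · rw [← hPrE]
      refine (Pr E N2).sub_mem ?_ hD1Pr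
      intro w' hw'
      rw [Finsupp.single_apply, if_neg]
      rintro rfl
      exact hvlT (hw ▸ (hTE w).2 hw')
    · rw [map_sub, nmD_single, hw, hrdeg, hprin]
      norm_num
  have hVA : Pool.Agent.Q5.MZ.VAData ℚ E σ N1 N2 A :=
    ⟨hσ, hN1, hN2, hram1, hd2, hk, hst, hsub, hsup, hh1⟩
  have hup : up ℚ E x ∈ A := hsup _ (m6 N2 x hN2 hcong)
  have hPR : Pool.Agent.Q5.MZ.PosRam E x := fun φ _ => hPos φ
  obtain ⟨t, -, ht⟩ := Pool.Agent.Q68.MZ.la ℚ E σ N1 N2 A hVA x hup hPR hD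
  refine ⟨(t : E) * y, ?_⟩
  have h8 : Algebra.norm ℚ (t : E) = (x : ℚ) := congrArg Units.val ht
  rw [map_mul, h8, hxv, div_mul_cancel₀ _ hpos.ne']

end Pool.Agent.H572.TW
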